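import Pool.Agent.Q322.LS.Gen

/-!
# A ring which is generated by its residue fields, with a spectrum that is not weakly noetherian

For a field `k` let `Axes k` be the ring of all sequences of power series over `k` which have the same
constant coefficient and are almost all constant (`k + ⨁ X k⟦X⟧`, infinitely many axes through one
point). It belongs to the localizing subcategory of `D (Axes k)` generated by the residue fields, but
its maximal ideal is not a weakly visible point of the spectrum.

Proof. Every Thomason subset which contains the maximal ideal contains almost all of the minimal primes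
`p_i`. The maximal ideal is the direct sum of the ideals `I_i = X k⟦X⟧` of the axes. The module
`κ(p_i) / I_i` is the union of modules of finite length, so it is in the localizing subcategory (mapping
telescope), hence `I_i`, the maximal ideal and the ring are in it.
-/

set_option autoImplicit false

open CategoryTheory Pool.Agent.Q322.LS

namespace Pool.Agent.Results.MP_e7c909_al.InfinitelyManyAxes

attribute [local instance] HasDerivedCategory.standard

/-- the objects of `D(R)` isomorphic to the residue field `κ(p)`, in degree zero, of a prime `p` -/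
def ResidueFields (R : Type) [CommRing R] : ObjectProperty (D R) := fun X =>
  ∃ p : PrimeSpectrum R, Nonempty (X ≅ deg0 (ModuleCat.of R p.asIdeal.ResidueField))

/-- a union of closed subsets with quasi-compact complements -/
def IsThomason {X : Type} [TopologicalSpace X] (Y : Set X) : Prop :=
  ∃ 𝒵 : Set (Set X), (∀ Z ∈ 𝒵, IsClosed Z ∧ IsCompact Zᶜ) ∧ Y = ⋃₀ 𝒵

/-- `{x}` is the difference of two Thomason subsets -/
def IsWeaklyVisible {X : Type} [TopologicalSpace X] (x : X) : Prop :=
  ∃ Y₁ Y₂ : Set X, IsThomason Y₁ ∧ IsThomason Y₂ ∧ ({x} : Set X) = Y₁ ∩ Y₂ᶜ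

/-- every point is weakly visible -/
def IsWeaklyNoetherian (X : Type) [TopologicalSpace X] : Prop := ∀ x : X, IsWeaklyVisible x

theorem star (k : Type) [Field k] :
    InLoc (ResidueFields (Axes k)) (deg0 (ModuleCat.of (Axes k) (Axes k))) := by
  intro P hP hS
  have hG := good_of_localizing P hP
  refine hG.axes (fun i => ?_) ?_
  · exact hS _ ⟨⟨pp i, inferInstance⟩, ⟨Iso.refl _⟩⟩
  · exact hS _ ⟨⟨mm, inferInstance⟩, ⟨Iso.refl _⟩⟩

theorem notWN (k : Type) [Field k] : ¬ IsWeaklyNoetherian (PrimeSpectrum (Axes k)) := by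
  intro h
  obtain ⟨Y₁, Y₂, ⟨Z₁, h1, rfl⟩, ⟨Z₂, h2, rfl⟩, h12⟩ :=
    h (⟨mm, inferInstance⟩ : PrimeSpectrum (Axes k))
  have hm : (⟨mm, inferInstance⟩ : PrimeSpectrum (Axes k)) ∈ ⋃₀ Z₁ ∩ (⋃₀ Z₂)ᶜ := by
    rw [← h12]; rfl
  obtain ⟨⟨Z, hZ, hmZ⟩, hm2⟩ := hm
  -- some minimal prime is in `Z`
  have hZ' := h1 Z hZ
  obtain ⟨t, ht⟩ := PrimeSpectrum.isCompact_isOpen_iff.1 ⟨hZ'.2, hZ'.1.isOpen_compl⟩
  have htZ : PrimeSpectrum.zeroLocus (t : Set (Axes k)) = Z := compl_injective ht
  rw [← htZ] at hmZ
  have hfin : ∀ f ∈ t, {i : ℕ | cr i f ≠ 0}.Finite := by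
    intro f hf
    obtain ⟨a, ha, hfi⟩ := f.2
    have h0 : ep f = 0 := mem_mm.1 (hmZ hf)
    have ha0 : a = 0 := (ha 0).symm.trans h0
    refine hfi.subset fun i hi h => hi ?_
    rw [cr_apply, h, ha0, map_zero]
  have hfin2 : (⋃ f ∈ t, {i : ℕ | cr i f ≠ 0}).Finite := t.finite_toSet.biUnion hfin
  obtain ⟨j, hj⟩ := hfin2.exists_notMem
  have hj' : ∀ f ∈ t, cr j f = 0 := by
    intro f hf
    by_contra hne
    exact hj (Set.mem_biUnion hf hne)
  have hpZ : (⟨pp j, inferInstance⟩ : PrimeSpectrum (Axes k)) ∈ Z := by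
    rw [← htZ]
    intro f hf
    exact mem_pp.2 (hj' f hf)
  -- it is not in the second Thomason set
  have hp2 : (⟨pp j, inferInstance⟩ : PrimeSpectrum (Axes k)) ∉ ⋃₀ Z₂ := by
    rintro ⟨W, hW, hpW⟩
    apply hm2
    refine ⟨W, hW, ?_⟩
    obtain ⟨s, hs⟩ := (PrimeSpectrum.isClosed_iff_zeroLocus W).1 (h2 W hW).1
    rw [hs] at hpW ⊢
    intro f hf
    have : f ∈ pp (k := k) j := hpW hf
    rw [mem_pp] at this
    exact mem_mm.2 (by rw [← cc_cr j, this, map_zero])
  have hmem : (⟨pp j, inferInstance⟩ : PrimeSpectrum (Axes k)) ∈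
      ({⟨mm, inferInstance⟩} : Set (PrimeSpectrum (Axes k))) := by
    rw [h12]
    exact ⟨⟨Z, hZ, hpZ⟩, hp2⟩
  have heq : pp (k := k) j = mm := congrArg PrimeSpectrum.asIdeal hmem
  have hx : xx (k := k) j ∈ mm := Ii_le j (xx_mem j)
  rw [← heq] at hx
  exact xx_notMem j hx

/-- **Negative answer.** For every field `k` the ring `Axes k` belongs to the localizing subcategory of
its derived category generated by the residue fields, but its spectrum is not weakly noetherian. -/
theorem result (k : Type) [Field k] :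
    InLoc (ResidueFields (Axes k)) (deg0 (ModuleCat.of (Axes k) (Axes k))) ∧
      ¬ IsWeaklyNoetherian (PrimeSpectrum (Axes k)) :=
  ⟨star k, notWN k⟩

end Pool.Agent.Results.MP_e7c909_al.InfinitelyManyAxes
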